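import Mathlib
import Pool.Agent.SmoothDegree.Defs
import Pool.Agent.SmoothDegree.LocalDegree
import Pool.Agent.Whitney.Defs
import Pool.Agent.Whitney.Baire
import Pool.Agent.HermanCaustic.Main

/-!
# Herman's question on the local degree of generic gradient maps: disproof for every `n ≥ 6`
-/

set_option autoImplicit false

namespace Pool.Agent.Results.MP_afd482_gt.HermanCaustic

open Pool.Agent.SmoothDegree Pool.Agent.Whitney Pool.Agent.HermanCaustic
open Set Filter Topology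
open scoped ContDiff

/-- An orthonormal family of six vectors. -/
theorem exists_orthonormal (n : ℕ) (hn : 6 ≤ n) :
    ∃ e : Fin 6 → EuclideanSpace ℝ (Fin n), Orthonormal ℝ e := by
  refine ⟨fun i => EuclideanSpace.single (Fin.castLE hn i) 1, ?_⟩
  exact (EuclideanSpace.orthonormal_single (𝕜 := ℝ) (ι := Fin n)).comp _
    (Fin.castLE_injective hn)

theorem result (n : ℕ) (hn : 6 ≤ n) :
    (∃ 𝒪 : Set (SmoothMap (EuclideanSpace ℝ (Fin n)) ℝ), IsOpen 𝒪 ∧ 𝒪.Nonempty ∧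
      ∀ f ∈ 𝒪, ∃ x, IsCriticalPoint (gradient f.1) x ∧ IsolatedInFibre (gradient f.1) x ∧
        HasLocalDegree (gradient f.1) x 0 ∧
        (∀ U ∈ 𝓝 x, gradient f.1 '' U ∈ 𝓝 (gradient f.1 x)) ∧
        ¬ PropertyR (gradient f.1) x) ∧
    {f : SmoothMap (EuclideanSpace ℝ (Fin n)) ℝ | ∀ x, IsCriticalPoint (gradient f.1) x →
      IsolatedInFibre (gradient f.1) x → PropertyR (gradient f.1) x} ∉
        residual (SmoothMap (EuclideanSpace ℝ (Fin n)) ℝ) := by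
  obtain ⟨e, he⟩ := exists_orthonormal n hn
  obtain ⟨ε, hε, hbad⟩ := exists_bad_point he
  have key : ∃ 𝒪 : Set (SmoothMap (EuclideanSpace ℝ (Fin n)) ℝ), IsOpen 𝒪 ∧ 𝒪.Nonempty ∧
      ∀ f ∈ 𝒪, ∃ x, IsCriticalPoint (gradient f.1) x ∧ IsolatedInFibre (gradient f.1) x ∧
        HasLocalDegree (gradient f.1) x 0 ∧
        (∀ U ∈ 𝓝 x, gradient f.1 '' U ∈ 𝓝 (gradient f.1 x)) ∧
        ¬ PropertyR (gradient f.1) x := by
    refine ⟨basicNhd ⟨baseFun e, contDiff_baseFun e⟩ 3 (fun _ => ε),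
      isOpen_basicNhd _ _ continuous_const fun _ => hε,
      ⟨_, mem_basicNhd_self _ _ fun _ => hε⟩, fun f hf => ?_⟩
    obtain ⟨p, h1, h2, h3, h4⟩ := hbad f.1 f.2 hf
    exact ⟨p, h1, h2, h3, h4, not_propertyR_of_locally_onto h2 h3 h4⟩
  refine ⟨key, fun hres => ?_⟩
  obtain ⟨𝒪, hO, hne, hall⟩ := key
  obtain ⟨f, hfO, hf⟩ := (dense_of_mem_residual hres).inter_open_nonempty 𝒪 hO hne
  obtain ⟨x, h1, h2, _, _, h5⟩ := hall f hfO
  exact h5 (hf x h1 h2)

end Pool.Agent.Results.MP_afd482_gt.HermanCaustic
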